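import Pool.Agent.H20.FT.Targets

/-!
# FewTerms: row AR
-/

set_option autoImplicit false

open NumberField Height Finset

namespace Pool.Agent.H20.FT

/-- a unit of finite order has absolute value one -/
theorem ar_one {F H : Type} [Field F] [NumberField F] [Group H] [Fintype H] (ψ : H →* Fˣ)
    (v : InfinitePlace F) (τ : H) : v (ψ τ : F) = 1 := by
  have h1 : (ψ τ : F) ^ Fintype.card H = 1 := by
    rw [← Units.val_pow_eq_pow_val, ← map_pow, pow_card_eq_one, map_one, Units.val_one]
  have h2 : v (ψ τ : F) ^ Fintype.card H = 1 := by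
    rw [← map_pow, h1, map_one]
  exact (pow_eq_one_iff_of_nonneg (apply_nonneg v _) Fintype.card_ne_zero).1 h2

theorem ar_orth {F H ι : Type} [Field F] [NumberField F] [Group H] [Fintype H] [Fintype ι]
    (ψ : ι → H →* Fˣ) (c : ι → F) (v : InfinitePlace F) (hψ : Function.Injective ψ) :
    ∑ τ, v (∑ i, (ψ i τ : F) * c i) ^ 2 = Fintype.card H * ∑ i, v (c i) ^ 2 := by
  classical
  set e := v.embedding with he
  have hv : ∀ x, v x = ‖e x‖ := fun x => (InfinitePlace.norm_embedding_eq v x).symm
  have hu : ∀ i τ, (starRingEnd ℂ) (e (ψ i τ : F)) = e ((ψ i τ)⁻¹ : Fˣ) := by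
    intro i τ
    have h1 : ‖e (ψ i τ : F)‖ = 1 := by rw [← hv, ar_one]
    rw [Units.val_inv_eq_inv_val, map_inv₀, Complex.inv_eq_conj h1]
  have horth : ∀ i j, ∑ τ, e (ψ i τ : F) * (starRingEnd ℂ) (e (ψ j τ : F)) =
      if i = j then (Fintype.card H : ℂ) else 0 := by
    intro i j
    split_ifs with hij
    · subst hij
      rw [Finset.sum_congr rfl (g := fun _ => (1 : ℂ))]
      · simp
      · intro τ _
        rw [hu, ← map_mul, ← Units.val_mul, mul_inv_cancel, Units.val_one, map_one]
    · set f : H →* ℂ := (e : F →* ℂ).comp ((Units.coeHom F).comp (ψ i / ψ j)) with hf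
      have hf1 : f ≠ 1 := by
        intro h
        apply hij
        apply hψ
        ext τ
        have h1 : f τ = 1 := by rw [h]; rfl
        have h2 : e (((ψ i / ψ j) τ : Fˣ) : F) = e 1 := by
          rw [map_one]
          exact h1
        have h3 := e.injective h2
        rw [MonoidHom.div_apply, Units.val_div_eq_div_val, div_eq_one_iff_eq (Units.ne_zero _)]
          at h3
        exact h3
      rw [← sum_hom_units_eq_zero f hf1]
      refine Finset.sum_congr rfl (fun τ _ => ?_)
      rw [hu, ← map_mul, ← Units.val_mul]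
      rfl
  have hC : ((∑ τ, v (∑ i, (ψ i τ : F) * c i) ^ 2 : ℝ) : ℂ) =
      ((Fintype.card H * ∑ i, v (c i) ^ 2 : ℝ) : ℂ) := by
    push_cast
    have h1 : ∀ τ, ((v (∑ i, (ψ i τ : F) * c i) : ℝ) : ℂ) ^ 2 =
        ∑ i, ∑ j, e (c i) * (starRingEnd ℂ) (e (c j)) *
          (e (ψ i τ : F) * (starRingEnd ℂ) (e (ψ j τ : F))) := by
      intro τ
      rw [hv, ← Complex.mul_conj', map_sum, map_sum, Finset.sum_mul_sum]
      refine Finset.sum_congr rfl (fun i _ => Finset.sum_congr rfl (fun j _ => ?_))
      rw [map_mul, map_mul, map_mul]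
      ring
    rw [Finset.sum_congr rfl (fun τ _ => h1 τ), Finset.sum_comm, Finset.mul_sum]
    refine Finset.sum_congr rfl (fun i _ => ?_)
    rw [Finset.sum_comm]
    rw [Finset.sum_congr rfl (g := fun j => e (c i) * (starRingEnd ℂ) (e (c j)) *
      (if i = j then (Fintype.card H : ℂ) else 0))]
    · simp only [mul_ite, mul_zero, Finset.sum_ite_eq, Finset.mem_univ, if_true]
      rw [Complex.mul_conj', ← hv]
      ring
    · intro j _
      rw [← Finset.mul_sum, horth]
  exact_mod_cast hC

theorem ar_jensen {ι : Type} [Fintype ι] (x : ι → ℝ) (hx : ∀ i, 0 < x i) (S : ℝ)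
    (hS : S = ∑ i, x i ^ 2) (hS0 : 0 < S) (hp : 1 ≤ Fintype.card ι) :
    2 * ∑ i, Real.log (x i) ≤
      Fintype.card ι * (Real.log S - Real.log (Fintype.card ι : ℝ)) := by
  have hp' : (0 : ℝ) < Fintype.card ι := by exact_mod_cast hp
  set b : ℝ := S / Fintype.card ι with hb
  have hb0 : 0 < b := by positivity
  have h1 : ∀ i, 2 * Real.log (x i) ≤ x i ^ 2 / b - 1 + Real.log b := by
    intro i
    have h2 := Real.log_le_sub_one_of_pos (show 0 < x i ^ 2 / b by have := hx i; positivity)
    rw [Real.log_div (by have := hx i; positivity) hb0.ne', Real.log_pow] at h2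
    push_cast at h2
    linarith
  rw [Finset.mul_sum]
  refine (Finset.sum_le_sum (fun i _ => h1 i)).trans (le_of_eq ?_)
  rw [Finset.sum_add_distrib, Finset.sum_sub_distrib, ← Finset.sum_div, ← hS]
  simp only [Finset.sum_const, Finset.card_univ, nsmul_eq_mul, mul_one]
  rw [hb, Real.log_div hS0.ne' hp'.ne']
  field_simp
  ring

theorem pf_AR (h : T_AN) : T_AR := by
  intro F H ι _ _ _ _ _ ρ ψ c v hp hψ hc hact
  have hρ : ∀ τ, ρ τ (∑ i, c i) = ∑ i, (ψ i τ : F) * c i := by
    intro τ
    rw [map_sum]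
    exact Finset.sum_congr rfl (fun i _ => hact τ i)
  set p := Fintype.card ι with hpd
  have hp' : (2 : ℝ) ≤ p := by exact_mod_cast hp
  set a : H → ℝ := fun τ => v (ρ τ (∑ i, c i)) with ha
  set S : ℝ := ∑ i, v (c i) ^ 2 with hS
  have hne : Nonempty ι := Fintype.card_pos_iff.1 (by omega)
  have hvc : ∀ i, 0 < v (c i) := fun i => InfinitePlace.pos_iff.2 (hc i)
  have hS0 : 0 < S := Finset.sum_pos (fun i _ => pow_pos (hvc i) 2) univ_nonempty
  have h1 : ∑ τ, a τ ^ 2 = Fintype.card H * S := by
    rw [hS, ← ar_orth ψ c v hψ]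
    refine Finset.sum_congr rfl (fun τ _ => ?_)
    rw [ha]
    simp only
    rw [hρ]
  have h2 : ∀ τ, a τ ^ 2 ≤ p * S := by
    intro τ
    have h3 : a τ ≤ ∑ i, v (c i) := by
      rw [ha]
      simp only
      rw [hρ]
      have h4 : v (∑ i, (ψ i τ : F) * c i) ≤ ∑ i, v ((ψ i τ : F) * c i) :=
        v.1.sum_le univ _
      refine h4.trans (le_of_eq ?_)
      refine Finset.sum_congr rfl (fun i _ => ?_)
      rw [map_mul, ar_one, one_mul]
    have h5 : (∑ i, v (c i)) ^ 2 ≤ p * S := by
      have := sq_sum_le_card_mul_sum_sq (s := (univ : Finset ι)) (f := fun i => v (c i))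
      rw [card_univ] at this
      exact this
    exact (pow_le_pow_left₀ (apply_nonneg v _) h3 2).trans h5
  have h3 := h H a p S hp (fun τ => apply_nonneg v _) h1 h2 hS0
  have h4 := ar_jensen (fun i => v (c i)) hvc S hS hS0 (by omega)
  rw [← hpd] at h4
  constructor
  · intro h5
    have h6 := h3.1 h5
    have h7 : Real.log (13 / 20) ≤ -(42 / 100) := by
      rw [Real.log_le_iff_le_exp (by norm_num)]
      have h8 : (97375 / 100000 : ℝ) ≤ Real.exp (-(2625 / 100000)) := by
        have := Real.add_one_le_exp (-(2625 / 100000 : ℝ))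
        linarith
      have h9 : Real.exp (-(42 / 100)) = Real.exp (-(2625 / 100000)) ^ 16 := by
        rw [← Real.exp_nat_mul]
        norm_num
      rw [h9]
      refine le_trans ?_ (pow_le_pow_left₀ (by norm_num) h8 16)
      norm_num
    have h8 : Real.log S - Real.log p ≤ Real.log (13 / 20) := by
      rw [← Real.log_div hS0.ne' (by positivity)]
      apply Real.log_le_log (by positivity)
      rw [div_le_iff₀ (by linarith)]
      linarith
    have h9 : (p : ℝ) * (Real.log S - Real.log p) ≤ p * (-(42 / 100)) :=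
      mul_le_mul_of_nonneg_left (h8.trans h7) (by linarith)
    linarith
  · have h5 := h3.2
    have h6 : Real.log 2 ≤ Real.log p := Real.log_le_log (by norm_num) hp'
    have hH : (0 : ℝ) ≤ Fintype.card H := by positivity
    have h7 := mul_le_mul_of_nonneg_left h4 hH
    have h8 : (Fintype.card H : ℝ) * Real.log 2 ≤ Fintype.card H * Real.log p :=
      mul_le_mul_of_nonneg_left h6 hH
    have h9 := mul_le_mul_of_nonneg_left (h5.trans (add_le_add_left h8 _))
      (show (0 : ℝ) ≤ p by linarith)
    have h10 : (Fintype.card H : ℝ) * (2 * ∑ i, Real.log (v (c i))) ≤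
        4 * (p : ℝ) ^ 2 * ∑ τ, Real.posLog (a τ) := by
      nlinarith
    nlinarith

end Pool.Agent.H20.FT
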