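import Pool.Agent.H20.FT.Targets

/-!
# FewTerms: row DG
-/

set_option autoImplicit false

open NumberField Height Finset

namespace Pool.Agent.H20.FT

section

variable {Ω : Type} [Field Ω] [Algebra ℚ Ω] [Algebra.IsAlgebraic ℚ Ω]

theorem dg_fin (L' : IntermediateField ℚ Ω) (X : Set Ω) (hX : X.Finite) :
    FiniteDimensional L' (IntermediateField.adjoin L' X) := by
  have := hX.to_subtype
  exact IntermediateField.finiteDimensional_adjoin
    (fun x _ => ((Algebra.IsAlgebraic.isAlgebraic (R := ℚ) x).isIntegral.tower_top))

theorem dg_one (L' : IntermediateField ℚ Ω) (X : Set Ω) (hX : X.Finite) (β : Ω) :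
    Module.finrank L' (IntermediateField.adjoin L' {β}) ≤
    Module.finrank L' (IntermediateField.adjoin L' X) *
      Module.finrank (IntermediateField.adjoin L' X)
        (IntermediateField.adjoin (IntermediateField.adjoin L' X) {β}) := by
  have h1 := dg_fin L' X hX
  set M := IntermediateField.adjoin L' X with hM
  have h2 : FiniteDimensional M (IntermediateField.adjoin M {β}) :=
    IntermediateField.adjoin.finiteDimensional
      ((Algebra.IsAlgebraic.isAlgebraic (R := ℚ) β).isIntegral.tower_top)
  have h3 : FiniteDimensional L' (IntermediateField.adjoin M {β}) :=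
    FiniteDimensional.trans L' M _
  rw [Module.finrank_mul_finrank]
  have h4 : IntermediateField.adjoin L' {β} ≤
      IntermediateField.restrictScalars L' (IntermediateField.adjoin M {β}) := by
    rw [IntermediateField.adjoin_simple_le_iff]
    exact IntermediateField.mem_adjoin_simple_self M β
  have h5 : FiniteDimensional L'
      (IntermediateField.restrictScalars L' (IntermediateField.adjoin M {β})) := h3
  exact IntermediateField.finrank_le_of_le_right h4

theorem dg_three (L' L : IntermediateField ℚ Ω) (X : Set Ω) (hX : X.Finite) (hLL : L' ≤ L)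
    (β : Ω) (hβ : β ∈ IntermediateField.adjoin L X) :
    Module.finrank L (IntermediateField.adjoin L {β}) ≤
    Module.finrank L' (IntermediateField.adjoin L' X) := by
  have h1 := dg_fin L' X hX
  set M := IntermediateField.adjoin L' X with hM
  set b := Module.finBasis L' M with hb
  set S : Submodule L Ω := Submodule.span L (Set.range (fun i => (b i : Ω))) with hS
  have hMS : ∀ m ∈ M, m ∈ S := by
    intro m hm
    have h2 := b.sum_repr ⟨m, hm⟩
    have h3 : m = ∑ i, ((b.repr ⟨m, hm⟩ i : L') : Ω) * (b i : Ω) := by
      have h4 := congrArg (fun z : M => (z : Ω)) h2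
      simp only at h4
      refine h4.symm.trans ?_
      push_cast
      rfl
    rw [h3]
    refine Submodule.sum_mem _ (fun i _ => ?_)
    exact Submodule.smul_mem S (⟨_, hLL (b.repr ⟨m, hm⟩ i).2⟩ : L)
      (Submodule.subset_span ⟨i, rfl⟩)
  have hmul : ∀ x ∈ S, ∀ y ∈ S, x * y ∈ S := by
    intro x hx y hy
    have h2 : S * S ≤ S := by
      rw [hS, Submodule.span_mul_span, Submodule.span_le]
      rintro z ⟨u, ⟨i, rfl⟩, v, ⟨j, rfl⟩, rfl⟩
      exact hMS _ (mul_mem (b i).2 (b j).2)
    exact h2 (Submodule.mul_mem_mul hx hy)
  have hadj : ∀ x ∈ IntermediateField.adjoin L X, x ∈ S := by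
    intro x hx
    have h2 : (IntermediateField.adjoin L X).toSubalgebra = Algebra.adjoin L X :=
      IntermediateField.adjoin_toSubalgebra_of_isAlgebraic
        (fun x _ => (Algebra.IsAlgebraic.isAlgebraic (R := ℚ) x).tower_top _)
    have h3 : x ∈ Algebra.adjoin L X := by
      rw [← h2]
      exact hx
    clear hx
    induction h3 using Algebra.adjoin_induction with
    | mem z hz => exact hMS z (IntermediateField.subset_adjoin L' X hz)
    | algebraMap r =>
      rw [Algebra.algebraMap_eq_smul_one]
      exact S.smul_mem r (hMS 1 (one_mem _))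
    | add z w _ _ hz hw => exact S.add_mem hz hw
    | mul z w _ _ hz hw => exact hmul z hz w hw
  have hle : (IntermediateField.adjoin L {β}).toSubalgebra.toSubmodule ≤ S := by
    intro x hx
    apply hadj
    have h2 : IntermediateField.adjoin L {β} ≤ IntermediateField.adjoin L X := by
      rw [IntermediateField.adjoin_simple_le_iff]
      exact hβ
    exact h2 hx
  have hfS : FiniteDimensional L S := FiniteDimensional.span_of_finite L (Set.finite_range _)
  have h5 : Module.finrank L (IntermediateField.adjoin L {β}) ≤ Module.finrank L S :=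
    Submodule.finrank_mono hle
  refine h5.trans ?_
  have h6 : (Set.range (fun i => (b i : Ω))).finrank L ≤ Fintype.card (Fin _) :=
    finrank_range_le_card (fun i => (b i : Ω))
  rw [Fintype.card_fin] at h6
  exact h6

end

theorem pf_DG : T_DG := by
  intro L' L X hLL hX
  have hAlg : Algebra.IsAlgebraic ℚ (AlgebraicClosure ℚ) := AlgebraicClosure.isAlgebraic ℚ
  refine ⟨fun β => dg_one L' X hX β, ?_, fun β hβ => dg_three L' L X hX hLL β hβ⟩
  have := dg_fin L' X hX
  exact Module.finrank_pos

end Pool.Agent.H20.FT
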