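import Pool.Agent.H20.FT.Targets

/-!
# FewTerms: row FN
-/

set_option autoImplicit false

open NumberField Height Finset

namespace Pool.Agent.H20.FT

section

variable {F : Type} [Field F] [NumberField F]

theorem fn_supp (x : F) : (Function.support fun v : FinitePlace F => Real.posLog (v x)).Finite := by
  rcases eq_or_ne x 0 with h | h
  · subst h
    have h1 : (Function.support fun v : FinitePlace F => Real.posLog (v (0 : F))) = ∅ := by
      ext v
      simp
    rw [h1]
    exact Set.finite_empty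
  · have h1 : (Function.mulSupport fun w : FinitePlace F => w x).Finite :=
      FinitePlace.hasFiniteMulSupport h
    refine h1.subset (fun v hv => ?_)
    rw [Function.mem_support] at hv
    rw [Function.mem_mulSupport]
    intro h2
    exact hv (by rw [h2, Real.posLog_one])

theorem fn_supp' (x : F) (h : x ≠ 0) :
    (Function.support fun v : FinitePlace F => Real.log (v x)).Finite := by
  have h1 : (Function.mulSupport fun w : FinitePlace F => w x).Finite :=
    FinitePlace.hasFiniteMulSupport h
  refine h1.subset (fun v hv => ?_)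
  rw [Function.mem_support] at hv
  rw [Function.mem_mulSupport]
  intro h2
  exact hv (by rw [h2, Real.log_one])

open Classical in
theorem fn_le (y : F) (hy : y ≠ 0) {κ : Type} (s : Finset κ) (x : κ → F)
    (h : ∀ v : FinitePlace F, Real.log (v y) ≤ ∑ l ∈ s, Real.posLog (v (x l))) :
    Lf y ≤ ∑ l ∈ s, ∑ᶠ v : FinitePlace F, Real.posLog (v (x l)) := by
  set A : Finset (FinitePlace F) := (fn_supp' y hy).toFinset ∪
    s.biUnion (fun l => (fn_supp (x l)).toFinset) with hA
  have h1 : Lf y = ∑ v ∈ A, Real.log (v y) := by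
    unfold Lf
    apply finsum_eq_sum_of_support_subset
    intro v hv
    rw [hA]
    simp only [Finset.coe_union, Set.Finite.coe_toFinset]
    exact Or.inl hv
  have h2 : ∀ l ∈ s, ∑ᶠ v : FinitePlace F, Real.posLog (v (x l)) =
      ∑ v ∈ A, Real.posLog (v (x l)) := by
    intro l hl
    apply finsum_eq_sum_of_support_subset
    intro v hv
    rw [hA, Finset.mem_coe, Finset.mem_union]
    right
    rw [Finset.mem_biUnion]
    exact ⟨l, hl, (Set.Finite.mem_toFinset _).2 hv⟩
  rw [h1, Finset.sum_congr rfl h2, Finset.sum_comm]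
  exact Finset.sum_le_sum (fun v _ => h v)

theorem fn_height (x : F) : ∑ᶠ v : FinitePlace F, Real.posLog (v x) ≤ logHeight₁ x := by
  rw [NumberField.logHeight₁_eq]
  have : 0 ≤ ∑ v : InfinitePlace F, (v.mult : ℝ) * Real.posLog (v x) :=
    Finset.sum_nonneg (fun v _ => mul_nonneg (Nat.cast_nonneg _) Real.posLog_nonneg)
  linarith

theorem fn_int (v : FinitePlace F) (x : F) (hx : IsIntegral ℤ x) : v x ≤ 1 := by
  rw [← FinitePlace.norm_embedding_eq]
  exact FinitePlace.norm_le_one (K := F) (v.maximalIdeal) (⟨x, hx⟩ : 𝓞 F)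

theorem fn_sum (v : FinitePlace F) {κ : Type} (s : Finset κ) (x : κ → F) (M : ℝ) (hM : 0 ≤ M)
    (h : ∀ l ∈ s, v (x l) ≤ M) : v (∑ l ∈ s, x l) ≤ M := by
  classical
  induction s using Finset.induction_on with
  | empty => rw [sum_empty, map_zero]; exact hM
  | insert a s ha ih =>
    rw [sum_insert ha]
    refine (FinitePlace.add_le v _ _).trans (max_le (h a (mem_insert_self a s)) ?_)
    exact ih (fun l hl => h l (mem_insert_of_mem hl))

open Classical in
theorem fn_coeff {ι : Type} (T : Finset ι) (z : ι → F) (hz : ∀ i, IsIntegral ℤ (z i)) (l : ℕ) :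
    IsIntegral ℤ ((∏ j ∈ T, (Polynomial.X - Polynomial.C (z j))).coeff l) := by
  have h1 : (∏ j ∈ T, (Polynomial.X - Polynomial.C (z j))) =
      (∏ j ∈ T, (Polynomial.X - Polynomial.C (⟨z j, hz j⟩ : integralClosure ℤ F))).map
        (algebraMap (integralClosure ℤ F) F) := by
    rw [Polynomial.map_prod]
    refine Finset.prod_congr rfl (fun j _ => ?_)
    rw [Polynomial.map_sub, Polynomial.map_X, Polynomial.map_C]
    rfl
  rw [h1, Polynomial.coeff_map]
  exact Subtype.prop _

end

open Classical in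
theorem pf_FN (h1 : T_LI) (h2 : T_IN) : T_FN := by
  intro F ι _ _ _ s c z hc hz hsc hsz hinj i
  obtain ⟨hL1, hL2, -, -, hL5⟩ := h1 F
  have hIN : ∀ (l : ℕ) (x : F), logHeight₁ (s^[l] x) = logHeight₁ x := by
    intro l
    induction l with
    | zero => intro x; rfl
    | succ l ih =>
      intro x
      rw [Function.iterate_succ_apply, ih, h2]
  have hit : ∀ l : ℕ, s^[l] (∑ j, c j) = ∑ j, z j ^ l * c j := by
    intro l
    induction l with
    | zero => simp
    | succ l ih =>
      rw [Function.iterate_succ_apply', ih, map_sum]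
      refine Finset.sum_congr rfl (fun j _ => ?_)
      rw [map_mul, map_pow, hsz, hsc, pow_succ]
      ring
  have hzi : ∀ j, IsIntegral ℤ (z j) := by
    intro j
    obtain ⟨n, hn, h⟩ := hz j
    exact IsIntegral.of_pow hn (by rw [h]; exact isIntegral_one)
  have hz0 : ∀ j, z j ≠ 0 := by
    intro j h0
    obtain ⟨n, hn, h⟩ := hz j
    rw [h0, zero_pow hn.ne'] at h
    exact zero_ne_one h
  set N : Polynomial F := ∏ j ∈ univ.erase i, (Polynomial.X - Polynomial.C (z j)) with hN
  have hdeg : N.natDegree < Fintype.card ι := by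
    rw [hN, Polynomial.natDegree_prod_of_monic _ _ (fun j _ => Polynomial.monic_X_sub_C _)]
    simp only [Polynomial.natDegree_X_sub_C, Finset.sum_const, smul_eq_mul, mul_one]
    rw [card_erase_of_mem (mem_univ i), card_univ]
    have : 0 < Fintype.card ι := Fintype.card_pos_iff.2 ⟨i⟩
    omega
  have hev : ∀ j, j ≠ i → N.eval (z j) = 0 := by
    intro j hj
    rw [hN, Polynomial.eval_prod]
    apply Finset.prod_eq_zero (mem_erase.2 ⟨hj, mem_univ j⟩)
    simp
  have hevi : N.eval (z i) = ∏ j ∈ univ.erase i, (z i - z j) := by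
    rw [hN, Polynomial.eval_prod]
    refine Finset.prod_congr rfl (fun j _ => ?_)
    simp
  set y : F := c i * ∏ j ∈ univ.erase i, (z i - z j) with hy
  have hd0 : ∀ j ∈ univ.erase i, z i - z j ≠ 0 := by
    intro j hj h
    exact (mem_erase.1 hj).1 (hinj (sub_eq_zero.1 h)).symm
  have hy0 : y ≠ 0 := mul_ne_zero (hc i) (Finset.prod_ne_zero_iff.2 hd0)
  have hysum : y = ∑ l ∈ range (Fintype.card ι), N.coeff l * s^[l] (∑ j, c j) := by
    have h3 : ∀ l ∈ range (Fintype.card ι), N.coeff l * s^[l] (∑ j, c j) =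
        ∑ j, c j * (N.coeff l * z j ^ l) := by
      intro l _
      rw [hit, Finset.mul_sum]
      refine Finset.sum_congr rfl (fun j _ => ?_)
      ring
    rw [Finset.sum_congr rfl h3, Finset.sum_comm]
    have h4 : ∀ j ∈ univ, ∑ l ∈ range (Fintype.card ι), c j * (N.coeff l * z j ^ l) =
        c j * N.eval (z j) := by
      intro j _
      rw [← Finset.mul_sum, Polynomial.eval_eq_sum_range' hdeg]
    rw [Finset.sum_congr rfl h4, Finset.sum_eq_single i]
    · rw [hevi]
    · intro j _ hj
      rw [hev j hj, mul_zero]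
    · intro h
      exact absurd (mem_univ i) h
  have hv : ∀ v : FinitePlace F, Real.log (v y) ≤
      ∑ l ∈ range (Fintype.card ι), Real.posLog (v (s^[l] (∑ j, c j))) := by
    intro v
    have hpos : 0 < v y := FinitePlace.pos_iff.2 hy0
    rw [Real.log_le_iff_le_exp hpos, hysum]
    refine fn_sum v _ _ _ (Real.exp_pos _).le (fun l hl => ?_)
    rw [map_mul]
    have h5 : v (N.coeff l) ≤ 1 := fn_int v _ (fn_coeff _ z hzi l)
    have h6 : v (s^[l] (∑ j, c j)) ≤ Real.exp (Real.posLog (v (s^[l] (∑ j, c j)))) := by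
      rcases (apply_nonneg v (s^[l] (∑ j, c j))).eq_or_lt with h | h
      · rw [← h]
        exact (Real.exp_pos _).le
      · rw [← Real.log_le_iff_le_exp h]
        exact le_max_right _ _
    have h7 : Real.posLog (v (s^[l] (∑ j, c j))) ≤
        ∑ l ∈ range (Fintype.card ι), Real.posLog (v (s^[l] (∑ j, c j))) :=
      Finset.single_le_sum (f := fun l => Real.posLog (v (s^[l] (∑ j, c j))))
        (fun l _ => Real.posLog_nonneg) hl
    calc v (N.coeff l) * v (s^[l] (∑ j, c j)) ≤ 1 * v (s^[l] (∑ j, c j)) :=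
          mul_le_mul_of_nonneg_right h5 (apply_nonneg v _)
      _ = v (s^[l] (∑ j, c j)) := one_mul _
      _ ≤ _ := h6.trans (Real.exp_le_exp.2 h7)
  have hLf : Lf y ≤ Fintype.card ι * logHeight₁ (∑ j, c j) := by
    refine (fn_le y hy0 _ _ hv).trans ?_
    refine (Finset.sum_le_sum (fun l _ => fn_height _)).trans ?_
    rw [Finset.sum_congr rfl (fun l _ => hIN l _)]
    simp
  have hLi1 : Li (1 : F) = 0 := hL5 1 1 one_pos (one_pow 1)
  have hLiprod : ∀ T : Finset ι, (∀ j ∈ T, z i - z j ≠ 0) →
      Li (∏ j ∈ T, (z i - z j)) = ∑ j ∈ T, Li (z i - z j) := by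
    intro T
    induction T using Finset.induction_on with
    | empty => intro _; rw [prod_empty, sum_empty, hLi1]
    | insert a T ha ih =>
      intro hT
      rw [prod_insert ha, sum_insert ha, hL2, ih]
      · intro j hj
        exact hT j (mem_insert_of_mem hj)
      · exact hT a (mem_insert_self a T)
      · exact Finset.prod_ne_zero_iff.2 (fun j hj => hT j (mem_insert_of_mem hj))
  have hLiz : ∀ j ∈ univ.erase i, Li (z i - z j) = Li (1 - z i / z j) := by
    intro j hj
    have h3 : z i - z j = (-z j) * (1 - z i / z j) := by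
      field_simp [hz0 j]
      ring
    have h4 : 1 - z i / z j ≠ 0 := by
      intro h
      apply hd0 j hj
      rw [h3, h, mul_zero]
    obtain ⟨n, hn, hzn⟩ := hz j
    have h5 : Li (-z j) = 0 := by
      apply hL5 (-z j) (2 * n) (by omega)
      rw [pow_mul, neg_sq, ← pow_mul, mul_comm 2 n, pow_mul, hzn, one_pow]
    rw [h3, hL2 _ _ (neg_ne_zero.2 (hz0 j)) h4, h5, zero_add]
  have h3 : Lf y = Lf (c i) - ∑ j ∈ univ.erase i, Li (1 - z i / z j) := by
    rw [hL1 y hy0, hL1 (c i) (hc i), hy, hL2 _ _ (hc i) (Finset.prod_ne_zero_iff.2 hd0),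
      hLiprod _ hd0, Finset.sum_congr rfl hLiz]
    ring
  linarith

end Pool.Agent.H20.FT
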