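import Pool.Agent.H20.FT.Targets
import Pool.Agent.H29.LG.Targets2

/-!
# FewTerms: row FT
-/

set_option autoImplicit false

open NumberField Height Finset

namespace Pool.Agent.H20.FT

theorem log_bound (k D D' : ℕ) (hk : 1 ≤ k) (hD : 1 ≤ D)
    (h : D' ≤ D * (10 ^ 4 * k ^ 4) ^ k) :
    0 ≤ Real.log (3 * D') ∧ Real.log (3 * D') ≤ 43 * (k : ℝ) ^ 2 * D := by
  have hk' : (1 : ℝ) ≤ k := by exact_mod_cast hk
  have hD' : (1 : ℝ) ≤ D := by exact_mod_cast hD
  rcases Nat.eq_zero_or_pos D' with h0 | h0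
  · rw [h0]
    simp only [Nat.cast_zero, mul_zero, Real.log_zero, le_refl, true_and]
    positivity
  have h1 : (1 : ℝ) ≤ D' := by exact_mod_cast h0
  constructor
  · exact Real.log_nonneg (by linarith)
  have h2 : (D' : ℝ) ≤ D * (10 ^ 4 * k ^ 4) ^ k := by exact_mod_cast h
  have h3 : (3 * D' : ℝ) ≤ (3 * D) * (10 * k) ^ (4 * k) := by
    calc (3 * D' : ℝ) ≤ 3 * (D * (10 ^ 4 * k ^ 4) ^ k) := by linarith
      _ = (3 * D) * (10 * k) ^ (4 * k) := by
        rw [pow_mul, mul_pow (10 : ℝ) (k : ℝ) 4]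
        ring
  have h4 : Real.log (3 * D') ≤ Real.log (3 * D) + (4 * k : ℕ) * Real.log (10 * k) := by
    refine (Real.log_le_log (by linarith) h3).trans (le_of_eq ?_)
    rw [Real.log_mul (by positivity) (by positivity), Real.log_pow]
  have h5 : Real.log (3 * D) ≤ 3 * D := by
    have := Real.log_le_sub_one_of_pos (show (0 : ℝ) < 3 * D by linarith)
    linarith
  have h6 : Real.log (10 * k) ≤ 10 * k := by
    have := Real.log_le_sub_one_of_pos (show (0 : ℝ) < 10 * k by linarith)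
    linarith
  have h7 : ((4 * k : ℕ) : ℝ) * Real.log (10 * k) ≤ (4 * k) * (10 * k) := by
    push_cast
    exact mul_le_mul_of_nonneg_left h6 (by linarith)
  have h8 : (1 : ℝ) ≤ (k : ℝ) ^ 2 := one_le_pow₀ hk'
  nlinarith

theorem final_bound (k D0 D D' C1 : ℕ) (c1 h : ℝ) (hk : 1 ≤ k) (hD : 1 ≤ D0) (hh : 0 ≤ h)
    (h1 : D ≤ D0) (h2 : D' ≤ D0 * (10 ^ 4 * k ^ 4) ^ k)
    (h3 : c1 ≤ h * D * Real.log (3 * D') ^ C1) :
    c1 / 43 ^ C1 ≤ h * ((k : ℝ) * D0) ^ (2 * C1 + 2) := by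
  obtain ⟨h4, h5⟩ := log_bound k D0 D' hk hD h2
  have hk' : (1 : ℝ) ≤ k := by exact_mod_cast hk
  have hD' : (1 : ℝ) ≤ D0 := by exact_mod_cast hD
  have h1' : (D : ℝ) ≤ D0 := by exact_mod_cast h1
  rw [div_le_iff₀ (by positivity)]
  have h6 : Real.log (3 * D') ^ C1 ≤ (43 * (k : ℝ) ^ 2 * D0) ^ C1 := pow_le_pow_left₀ h4 h5 _
  have h7 : h * D * Real.log (3 * D') ^ C1 ≤ h * D0 * (43 * (k : ℝ) ^ 2 * D0) ^ C1 :=
    mul_le_mul (mul_le_mul_of_nonneg_left h1' hh) h6 (pow_nonneg h4 _) (by positivity)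
  refine h3.trans (h7.trans ?_)
  have h8 : h * D0 * (43 * (k : ℝ) ^ 2 * D0) ^ C1 =
      h * (D0 * (((k : ℝ) * k) * D0) ^ C1) * 43 ^ C1 := by
    rw [show (43 * (k : ℝ) ^ 2 * D0) = 43 * (((k : ℝ) * k) * D0) by ring, mul_pow]
    ring
  rw [h8]
  refine mul_le_mul_of_nonneg_right (mul_le_mul_of_nonneg_left ?_ hh) (by positivity)
  have hx : (1 : ℝ) ≤ (k : ℝ) * D0 := one_le_mul_of_one_le_of_one_le hk' hD'
  have h9 : ((k : ℝ) * k) * D0 ≤ ((k : ℝ) * D0) ^ 2 := by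
    have : ((k : ℝ) * k) * D0 * 1 ≤ ((k : ℝ) * k) * D0 * D0 :=
      mul_le_mul_of_nonneg_left hD' (by positivity)
    nlinarith
  have h10 : (D0 : ℝ) ≤ ((k : ℝ) * D0) ^ 2 := by
    have h11 : (D0 : ℝ) ≤ (k : ℝ) * D0 := by nlinarith
    calc (D0 : ℝ) ≤ (k : ℝ) * D0 := h11
      _ ≤ ((k : ℝ) * D0) ^ 2 := by
        rw [pow_two]
        exact le_mul_of_one_le_left (by positivity) hx
  calc (D0 : ℝ) * (((k : ℝ) * k) * D0) ^ C1 ≤
        ((k : ℝ) * D0) ^ 2 * (((k : ℝ) * D0) ^ 2) ^ C1 :=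
      mul_le_mul h10 (pow_le_pow_left₀ (by positivity) h9 _) (by positivity) (by positivity)
    _ = ((k : ℝ) * D0) ^ (2 * C1 + 2) := by
      rw [← pow_mul, ← pow_add]
      congr 1
      ring

theorem pf_FT (hRD : T_RD) (hDG : T_DG) (hM : Pool.Agent.H29.LG.T_MUNI)
    (hHB : Pool.Agent.H24.RD.T_HB) : T_FT := by
  classical
  intro Γ hΓ S
  have hAlg : Algebra.IsAlgebraic ℚ (AlgebraicClosure ℚ) := AlgebraicClosure.isAlgebraic ℚ
  have hh0 : ∀ x : AlgebraicClosure ℚ, 0 ≤ absLogHeight₁ x := (hHB (AlgebraicClosure ℚ)).1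
  obtain ⟨c1, C1, hc1, hM⟩ := hM Γ hΓ S
  refine ⟨min (c1 / 43 ^ C1) (1 / 150), 2 * C1 + 2, lt_min (by positivity) (by norm_num), ?_⟩
  intro L' hL' k δ γ hγ hα0 hαn
  set L : IntermediateField ℚ (AlgebraicClosure ℚ) := IntermediateField.adjoin ℚ
    {z : AlgebraicClosure ℚ | ∃ n : ℕ, 0 < n ∧ ∃ g ∈ Γ, z ^ n = (g : AlgebraicClosure ℚ)}
    with hL
  have hLL : L' ≤ L := by
    rw [hL', IntermediateField.adjoin_le_iff]
    rintro z (⟨n, hn, hz⟩ | ⟨n, hn, -, g, hg, hz⟩)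
    · exact IntermediateField.subset_adjoin ℚ _ ⟨n, hn, 1, Γ.one_mem, by rw [hz]; simp⟩
    · exact IntermediateField.subset_adjoin ℚ _ ⟨n, hn, g, hg, hz⟩
  have hk : 1 ≤ k := by
    rcases Nat.eq_zero_or_pos k with h | h
    · subst h
      exact absurd (by simp) hα0
    · exact h
  obtain ⟨hDG1, hDG2, hDG3⟩ := hDG L' L (Set.range δ) hLL (Set.finite_range δ)
  set D0 := Module.finrank L' (IntermediateField.adjoin L' (Set.range δ)) with hD0
  set E : IntermediateField ℚ (AlgebraicClosure ℚ) :=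
    IntermediateField.restrictScalars ℚ (IntermediateField.adjoin L' (Set.range δ)) with hE
  have hLE : ∀ z ∈ L', z ∈ E := fun z hz =>
    (IntermediateField.adjoin L' (Set.range δ)).algebraMap_mem ⟨z, hz⟩
  have hδE : ∀ i, δ i ∈ E := fun i =>
    IntermediateField.subset_adjoin L' (Set.range δ) ⟨i, rfl⟩
  have hΓE : ∀ g ∈ Γ, (g : AlgebraicClosure ℚ) ∈ E := by
    intro g hg
    apply hLE
    rw [hL']
    refine IntermediateField.subset_adjoin ℚ _ (Or.inr ⟨1, one_pos, ?_, g, hg, pow_one _⟩)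
    intro p hp hp1
    exact absurd (Nat.dvd_one.1 hp1) hp.ne_one
  have hU : ∀ z : AlgebraicClosure ℚ, (∃ n : ℕ, 0 < n ∧ z ^ n = 1) → z ∈ E := by
    intro z hz
    apply hLE
    rw [hL']
    exact IntermediateField.subset_adjoin ℚ _ (Or.inl hz)
  set α := ∑ i, δ i * γ i with hα
  have hsum : ∑ i : {i : Fin k // δ i * γ i ≠ 0}, δ i.1 * γ i.1 = α := by
    have h1 : ∑ i ∈ univ.filter (fun i : Fin k => δ i * γ i ≠ 0), δ i * γ i =
        ∑ i : {i : Fin k // δ i * γ i ≠ 0}, δ i.1 * γ i.1 :=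
      Finset.sum_subtype (univ.filter (fun i : Fin k => δ i * γ i ≠ 0))
        (p := fun i => δ i * γ i ≠ 0) (by simp) (fun i => δ i * γ i)
    rw [← h1]
    exact Finset.sum_filter_ne_zero _
  have hcard : Fintype.card {i : Fin k // δ i * γ i ≠ 0} ≤ k :=
    (Fintype.card_subtype_le _).trans (le_of_eq (Fintype.card_fin k))
  have hne : Nonempty {i : Fin k // δ i * γ i ≠ 0} := by
    by_contra h
    rw [not_nonempty_iff] at h
    rw [← hsum] at hα0
    exact hα0 (by simp)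
  have hpos : 1 ≤ Fintype.card {i : Fin k // δ i * γ i ≠ 0} := Fintype.card_pos
  rcases hRD E {i : Fin k // δ i * γ i ≠ 0} (fun i => δ i.1 * γ i.1) hU (by
    rintro ⟨i, hi⟩
    obtain ⟨n, hn, g, hg, hgn⟩ := hγ i
    refine ⟨hi, n, hn, ?_⟩
    simp only
    rw [mul_pow, hgn]
    exact mul_mem (pow_mem (hδE i) n) (hΓE g hg)) (by rw [hsum]; exact hα0) with ⟨⟨i, hi⟩, h⟩ | h
  · rw [hsum] at h
    simp only at h
    have hγi : γ i ≠ 0 := right_ne_zero_of_mul hi
    have hδi : δ i ≠ 0 := left_ne_zero_of_mul hi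
    have hβ : α / γ i * γ i = α := div_mul_cancel₀ _ hγi
    have h1 := hM L L' rfl hL' (α / γ i) (γ i) (hγ i) (by rw [hβ]; exact hα0)
      (by rw [hβ]; exact hαn)
    rw [hβ] at h1
    have hrad : ∀ j, γ j ∈ L := fun j => IntermediateField.subset_adjoin ℚ _ (hγ j)
    have h2 : Module.finrank L (IntermediateField.adjoin L {α / γ i}) ≤ D0 := by
      apply hDG3
      refine div_mem (sum_mem (fun j _ => mul_mem ?_ ?_)) ?_
      · exact IntermediateField.subset_adjoin L _ ⟨j, rfl⟩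
      · exact (IntermediateField.adjoin L (Set.range δ)).algebraMap_mem ⟨γ j, hrad j⟩
      · exact (IntermediateField.adjoin L (Set.range δ)).algebraMap_mem ⟨γ i, hrad i⟩
    have h3 : Module.finrank E (IntermediateField.adjoin E {α / γ i}) ≤
        (10 ^ 4 * k ^ 4) ^ k := by
      have h4 : IntermediateField.adjoin E {α / γ i} ≤
          IntermediateField.adjoin E {α / (δ i * γ i)} := by
        rw [IntermediateField.adjoin_simple_le_iff]
        have h5 : α / γ i = δ i * (α / (δ i * γ i)) := by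
          field_simp
        rw [h5]
        refine mul_mem ?_ (IntermediateField.mem_adjoin_simple_self E _)
        exact (IntermediateField.adjoin E {α / (δ i * γ i)}).algebraMap_mem ⟨δ i, hδE i⟩
      have h6 : FiniteDimensional E (IntermediateField.adjoin E {α / (δ i * γ i)}) :=
        IntermediateField.adjoin.finiteDimensional
          ((hAlg.isAlgebraic (α / (δ i * γ i))).isIntegral.tower_top)
      refine (IntermediateField.finrank_le_of_le_right h4).trans (h.trans ?_)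
      calc (10 ^ 4 * Fintype.card {i : Fin k // δ i * γ i ≠ 0} ^ 4) ^
            Fintype.card {i : Fin k // δ i * γ i ≠ 0}
          ≤ (10 ^ 4 * k ^ 4) ^ Fintype.card {i : Fin k // δ i * γ i ≠ 0} :=
            Nat.pow_le_pow_left (Nat.mul_le_mul_left _ (Nat.pow_le_pow_left hcard 4)) _
        _ ≤ (10 ^ 4 * k ^ 4) ^ k := Nat.pow_le_pow_right
            (by positivity) hcard
    have h7 := (hDG1 (α / γ i)).trans (Nat.mul_le_mul_left D0 h3)
    refine (min_le_left _ _).trans (final_bound k D0 _ _ C1 c1 (absLogHeight₁ α) hk hDG2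
      (hh0 α) h2 h7 h1)
  · rw [hsum] at h
    refine (min_le_right _ _).trans ?_
    have hk' : (1 : ℝ) ≤ k := by exact_mod_cast hk
    have hD' : (1 : ℝ) ≤ D0 := by exact_mod_cast hDG2
    have hx : (1 : ℝ) ≤ (k : ℝ) * D0 := one_le_mul_of_one_le_of_one_le hk' hD'
    have hp1 : (1 : ℝ) ≤ Fintype.card {i : Fin k // δ i * γ i ≠ 0} := by exact_mod_cast hpos
    have hp2 : (Fintype.card {i : Fin k // δ i * γ i ≠ 0} : ℝ) ≤ k := by exact_mod_cast hcard
    set p : ℝ := (Fintype.card {i : Fin k // δ i * γ i ≠ 0} : ℝ) with hp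
    have h8 : (1 : ℝ) / 150 ≤ absLogHeight₁ α * p ^ 2 := by
      rw [div_le_iff₀ (by positivity)] at h
      rw [div_le_iff₀ (by norm_num)]
      linarith
    refine h8.trans (mul_le_mul_of_nonneg_left ?_ (hh0 α))
    have h9 : p ≤ (k : ℝ) * D0 := by nlinarith
    calc p ^ 2 ≤ ((k : ℝ) * D0) ^ 2 := pow_le_pow_left₀ (by linarith) h9 2
      _ ≤ ((k : ℝ) * D0) ^ (2 * C1 + 2) := pow_le_pow_right₀ hx (by omega)

end Pool.Agent.H20.FT
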