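import Pool.Agent.H20.FT.Targets

/-!
# FewTerms: row GR
-/

set_option autoImplicit false

open NumberField Height Finset

namespace Pool.Agent.H20.FT

open Classical in
theorem gr_aux {G M ι : Type} [Group G] [Finite G] [CommGroup M] [Fintype ι]
    (χ : ι → G →* M) (T : ℕ) (hT : 1 ≤ T) : ∀ (b : ℕ) (N : Subgroup G) (a : ℕ),
    N.index ≤ T ^ a →
    (univ.image (fun i => (χ i).comp N.subtype)).card ≤ b + 1 →
    ∃ N' : Subgroup G, N'.index ≤ T ^ (a + b) ∧
    ∀ i j, (χ i).comp N'.subtype = (χ j).comp N'.subtype ∨
      T ≤ Nat.card ((χ i).comp N'.subtype / (χ j).comp N'.subtype).range := by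
  intro b
  induction b with
  | zero =>
    intro N a hN hq
    refine ⟨N, hN, fun i j => Or.inl ?_⟩
    exact Finset.card_le_one.1 hq _ (mem_image_of_mem _ (mem_univ i)) _
      (mem_image_of_mem _ (mem_univ j))
  | succ b ih =>
    intro N a hN hq
    by_cases hall : ∀ i j, (χ i).comp N.subtype = (χ j).comp N.subtype ∨
      T ≤ Nat.card ((χ i).comp N.subtype / (χ j).comp N.subtype).range
    · exact ⟨N, hN.trans (Nat.pow_le_pow_right hT (by omega)), hall⟩
    push Not at hall
    obtain ⟨i, j, hij, hlt⟩ := hall
    set ψ : N →* M := (χ i).comp N.subtype / (χ j).comp N.subtype with hψ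
    set N1 : Subgroup G := ψ.ker.map N.subtype with hN1
    have hle : N1 ≤ N := Subgroup.map_subtype_le _
    have hidx : N1.index = N.index * Nat.card ψ.range := by
      have h1 : N1.relIndex N = ψ.ker.index := by
        rw [hN1, Subgroup.relIndex, Subgroup.subgroupOf,
          Subgroup.comap_map_eq_self_of_injective N.subtype_injective]
      rw [← Subgroup.index_ker, ← h1, mul_comm]
      exact (Subgroup.relIndex_mul_index hle).symm
    have hidx2 : N1.index ≤ T ^ (a + 1) := by
      rw [hidx, pow_succ]
      exact Nat.mul_le_mul hN hlt.le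
    have hmem : ∀ x : N1, ψ ⟨x.1, hle x.2⟩ = 1 := by
      rintro ⟨x, hx⟩
      obtain ⟨y, hy, rfl⟩ := hx
      exact hy
    have hsame : (χ i).comp N1.subtype = (χ j).comp N1.subtype := by
      ext x
      have h := hmem x
      rw [hψ, MonoidHom.div_apply, div_eq_one] at h
      exact h
    -- the restriction map from the characters on N to those on N1
    have himg : (univ.image (fun l => (χ l).comp N1.subtype)) =
        (univ.image (fun l => (χ l).comp N.subtype)).image
          (fun φ => φ.comp (Subgroup.inclusion hle)) := by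
      rw [Finset.image_image]
      rfl
    have hcard : (univ.image (fun l => (χ l).comp N1.subtype)).card ≤ b + 1 := by
      have h2 : (univ.image (fun l => (χ l).comp N1.subtype)) =
          ((univ.image (fun l => (χ l).comp N.subtype)).erase ((χ i).comp N.subtype)).image
          (fun φ => φ.comp (Subgroup.inclusion hle)) := by
        rw [himg]
        apply Finset.Subset.antisymm
        · intro φ hφ
          obtain ⟨θ, hθ, rfl⟩ := mem_image.1 hφ
          by_cases h : θ = (χ i).comp N.subtype
          · rw [mem_image]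
            refine ⟨(χ j).comp N.subtype, mem_erase.2 ⟨fun h' => hij h'.symm,
              mem_image_of_mem _ (mem_univ j)⟩, ?_⟩
            rw [h]
            exact hsame.symm
          · exact mem_image_of_mem _ (mem_erase.2 ⟨h, hθ⟩)
        · exact image_subset_image (erase_subset _ _)
      rw [h2]
      refine card_image_le.trans ?_
      rw [card_erase_of_mem (mem_image_of_mem _ (mem_univ i))]
      omega
    obtain ⟨N', h3, h4⟩ := ih N1 (a + 1) hidx2 hcard
    exact ⟨N', by rwa [show a + (b + 1) = a + 1 + b by ring], h4⟩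

theorem pf_GR : T_GR := by
  classical
  intro G M ι _ _ _ _ χ T hT
  rcases isEmpty_or_nonempty ι with h | h
  · refine ⟨⊤, ?_, fun i => h.elim i⟩
    rw [Subgroup.index_top]
    exact Nat.one_le_pow _ _ hT
  · obtain ⟨N, h1, h2⟩ := gr_aux χ T hT (Fintype.card ι - 1) ⊤ 0 (by simp) (by
      have h3 : 1 ≤ Fintype.card ι := Fintype.card_pos
      rw [Nat.sub_add_cancel h3]
      exact card_image_le.trans (le_of_eq card_univ))
    refine ⟨N, h1.trans ?_, h2⟩
    exact Nat.pow_le_pow_right hT (by omega)

end Pool.Agent.H20.FT
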