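import Pool.Agent.H20.FT.Targets

/-!
# FewTerms: row RD
-/

set_option autoImplicit false

open NumberField Height Finset

namespace Pool.Agent.H20.FT

/-- the character of a Kummer element -/
noncomputable def kchar {F : Type} [Field F] [NumberField F] (G : Subgroup (F ≃ₐ[ℚ] F)) (c : F)
    (hc : c ≠ 0) (hf : ∀ τ ∈ G, ∀ τ' ∈ G, τ (τ' c / c) = τ' c / c) : G →* Fˣ where
  toFun τ := Units.mk0 (τ.1 c / c) (div_ne_zero ((map_ne_zero _).2 hc) hc)
  map_one' := by
    ext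
    simp [hc]
  map_mul' := by
    rintro ⟨τ, hτ⟩ ⟨τ', hτ'⟩
    ext
    simp only [Units.val_mk0, Units.val_mul]
    have h1 := hf τ hτ τ' hτ'
    have h2 : τ c ≠ 0 := (map_ne_zero _).2 hc
    rw [map_div₀] at h1
    have h3 : τ (τ' c) = τ' c / c * τ c := by
      rw [← h1, div_mul_cancel₀ _ h2]
    change τ (τ' c) / c = _
    rw [h3]
    ring

theorem kchar_apply {F : Type} [Field F] [NumberField F] (G : Subgroup (F ≃ₐ[ℚ] F)) (c : F)
    (hc : c ≠ 0) (hf : ∀ τ ∈ G, ∀ τ' ∈ G, τ (τ' c / c) = τ' c / c) (τ : G) :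
    τ.1 c = (kchar G c hc hf τ : F) * c := by
  change τ.1 c = τ.1 c / c * c
  rw [div_mul_cancel₀ _ hc]

theorem kchar_fix {F : Type} [Field F] [NumberField F] (G : Subgroup (F ≃ₐ[ℚ] F)) (c : F)
    (hc : c ≠ 0) (hf : ∀ τ ∈ G, ∀ τ' ∈ G, τ (τ' c / c) = τ' c / c) (τ σ : G) :
    τ.1 (kchar G c hc hf σ : F) = (kchar G c hc hf σ : F) :=
  hf τ.1 τ.2 σ.1 σ.2

open Classical in
theorem core (hLM : T_LM) (hGR : T_GR) (F ι : Type) [Field F] [NumberField F] [Fintype ι]
    (G : Subgroup (F ≃ₐ[ℚ] F)) (c : ι → F) (hc : ∀ i, c i ≠ 0)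
    (hf : ∀ i, ∀ τ ∈ G, ∀ τ' ∈ G, τ (τ' (c i) / c i) = τ' (c i) / c i)
    (hα : ∑ i, c i ≠ 0) :
    (∃ i, ∃ B : Finset F, B.card ≤ (10 ^ 4 * Fintype.card ι ^ 4) ^ Fintype.card ι ∧
      ∀ τ ∈ G, τ ((∑ j, c j) / c i) ∈ B) ∨
    Module.finrank ℚ F / (150 * (Fintype.card ι : ℝ) ^ 2) ≤ logHeight₁ (∑ i, c i) := by
  have hι : Nonempty ι := by
    by_contra h
    rw [not_nonempty_iff] at h
    exact hα (by simp)
  have hk : 1 ≤ Fintype.card ι := Fintype.card_pos
  have hT : 1 ≤ 10 ^ 4 * Fintype.card ι ^ 4 :=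
    Nat.one_le_iff_ne_zero.2 (by positivity)
  obtain ⟨N, hN, hN2⟩ := hGR G Fˣ ι (fun i => kchar G (c i) (hc i) (hf i)) _ hT
  set res : ι → (N →* Fˣ) := fun i => (kchar G (c i) (hc i) (hf i)).comp N.subtype with hres
  set cp : (N →* Fˣ) → F := fun ψ => ∑ i ∈ univ.filter (fun i => res i = ψ), c i with hcp
  set Q : Finset (N →* Fˣ) := univ.image res with hQ
  set J : Finset (N →* Fˣ) := Q.filter (fun ψ => cp ψ ≠ 0) with hJ
  have hs1 : ∑ ψ ∈ Q, cp ψ = ∑ i, c i :=
    Finset.sum_fiberwise_of_maps_to (fun i _ => mem_image_of_mem _ (mem_univ i)) _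
  have hs2 : ∑ ψ ∈ J, cp ψ = ∑ i, c i := by
    rw [← hs1, hJ, Finset.sum_filter_ne_zero]
  have hact : ∀ (τ : N) (ψ : N →* Fˣ), τ.1.1 (cp ψ) = (ψ τ : F) * cp ψ := by
    intro τ ψ
    rw [hcp]
    simp only
    rw [map_sum, Finset.mul_sum]
    refine Finset.sum_congr rfl (fun i hi => ?_)
    rw [← (Finset.mem_filter.1 hi).2]
    exact kchar_apply G (c i) (hc i) (hf i) τ.1
  have hJk : J.card ≤ Fintype.card ι :=
    (card_filter_le _ _).trans (card_image_le.trans (le_of_eq (card_univ)))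
  have hJ0 : J.Nonempty := by
    rw [Finset.nonempty_iff_ne_empty]
    intro h
    rw [h, sum_empty] at hs2
    exact hα hs2.symm
  rcases Nat.lt_or_ge J.card 2 with hlt | hge
  · left
    have h1 : J.card = 1 := by
      have := hJ0.card_pos
      omega
    obtain ⟨ψ, hψ⟩ := Finset.card_eq_one.1 h1
    rw [hψ, sum_singleton] at hs2
    have hψQ : ψ ∈ Q := by
      have : ψ ∈ J := by rw [hψ]; exact mem_singleton_self _
      exact (mem_filter.1 this).1
    obtain ⟨i, -, hi⟩ := mem_image.1 hψQ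
    refine ⟨i, univ.image (fun q : G ⧸ N => (Quotient.out q).1 ((∑ j, c j) / c i)), ?_, ?_⟩
    · refine card_image_le.trans ?_
      rw [card_univ, ← Nat.card_eq_fintype_card]
      exact hN
    · intro τ hτ
      rw [mem_image]
      refine ⟨((⟨τ, hτ⟩ : G) : G ⧸ N), mem_univ _, ?_⟩
      obtain ⟨n, hn⟩ := QuotientGroup.mk_out_eq_mul N (⟨τ, hτ⟩ : G)
      have h2 : (Quotient.out ((⟨τ, hτ⟩ : G) : G ⧸ N)).1 ((∑ j, c j) / c i) =
          τ (n.1.1 ((∑ j, c j) / c i)) := by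
        have h3 : (Quotient.out ((⟨τ, hτ⟩ : G) : G ⧸ N)) = (⟨τ, hτ⟩ : G) * n.1 := hn
        rw [h3]
        rfl
      rw [h2, map_div₀, ← hs2, hact, kchar_apply G (c i) (hc i) (hf i) n.1]
      have h4 : (kchar G (c i) (hc i) (hf i) n.1 : F) = (ψ n : F) := by
        rw [← hi]
        rfl
      rw [h4, mul_div_mul_left _ _ (Units.ne_zero _)]
  · right
    have hcard : Fintype.card J = J.card := Fintype.card_coe J
    have := hLM F N J (G.subtype.comp N.subtype) (fun j => j.1) (fun j => cp j.1)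
      (by rw [hcard]; exact hge) (by
        rintro ⟨ψ, hψ⟩ ⟨ψ', hψ'⟩ hne
        obtain ⟨i, -, hi⟩ := mem_image.1 (mem_filter.1 hψ).1
        obtain ⟨i', -, hi'⟩ := mem_image.1 (mem_filter.1 hψ').1
        have hne' : ψ ≠ ψ' := fun h => hne (Subtype.ext h)
        rcases hN2 i i' with h | h
        · exact absurd (hi.symm.trans (h.trans hi')) hne'
        · have h5 : (kchar G (c i) (hc i) (hf i)).comp N.subtype = ψ := hi
          have h6 : (kchar G (c i') (hc i') (hf i')).comp N.subtype = ψ' := hi'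
          rw [h5, h6] at h
          refine le_trans ?_ h
          rw [hcard]
          exact Nat.mul_le_mul_left _ (Nat.pow_le_pow_left hJk 4))
      (fun j => (mem_filter.1 j.2).2)
      (fun τ j => hact τ j.1)
      (by
        rintro τ σ ⟨ψ, hψ⟩
        obtain ⟨i, -, hi⟩ := mem_image.1 (mem_filter.1 hψ).1
        simp only
        rw [← hi]
        exact kchar_fix G (c i) (hc i) (hf i) τ.1 σ.1)
    have h7 : ∑ j : J, cp j.1 = ∑ i, c i := by
      rw [← hs2]
      exact Finset.sum_coe_sort J cp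
    rw [h7, hcard] at this
    refine le_trans ?_ this
    have h8 : (J.card : ℝ) ≤ Fintype.card ι := by exact_mod_cast hJk
    have h9 : (0 : ℝ) < J.card := by exact_mod_cast hJ0.card_pos
    apply div_le_div_of_nonneg_left (by positivity) (by positivity)
    exact mul_le_mul_of_nonneg_left (pow_le_pow_left₀ h9.le h8 2) (by norm_num)

theorem pf_RD (hLM : T_LM) (hGR : T_GR) (hOB : T_OB) (hHA : Pool.Agent.H24.RD.T_HA) : T_RD := by
  classical
  intro E ι _ c hE hc hα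
  have hAlg : Algebra.IsAlgebraic ℚ (AlgebraicClosure ℚ) := AlgebraicClosure.isAlgebraic ℚ
  have hCl : IsAlgClosure ℚ (AlgebraicClosure ℚ) := ⟨inferInstance, hAlg⟩
  have hNor : Normal ℚ (AlgebraicClosure ℚ) := IsAlgClosure.normal ℚ (AlgebraicClosure ℚ)
  set F : IntermediateField ℚ (AlgebraicClosure ℚ) :=
    IntermediateField.normalClosure ℚ (IntermediateField.adjoin ℚ (Set.range c))
      (AlgebraicClosure ℚ) with hF
  have hfin : FiniteDimensional ℚ (IntermediateField.adjoin ℚ (Set.range c)) :=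
    IntermediateField.finiteDimensional_adjoin (fun x _ => (hAlg.isAlgebraic x).isIntegral)
  have : FiniteDimensional ℚ F := by
    rw [hF]
    infer_instance
  have : NumberField F := ⟨⟩
  have : Normal ℚ F := normalClosure.normal _ _ _
  have hcF : ∀ i, c i ∈ F := fun i =>
    IntermediateField.le_normalClosure _ (IntermediateField.subset_adjoin ℚ _ ⟨i, rfl⟩)
  set cF : ι → F := fun i => ⟨c i, hcF i⟩ with hcFd
  set r : (AlgebraicClosure ℚ ≃ₐ[E] AlgebraicClosure ℚ) →* (F ≃ₐ[ℚ] F) :=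
    (AlgEquiv.restrictNormalHom F).comp (AlgEquiv.restrictScalarsHom ℚ) with hr
  have hrc : ∀ (σ : AlgebraicClosure ℚ ≃ₐ[E] AlgebraicClosure ℚ) (x : F),
      ((r σ x : F) : AlgebraicClosure ℚ) = σ (x : AlgebraicClosure ℚ) := by
    intro σ x
    exact AlgEquiv.restrictNormal_commutes (σ.restrictScalars ℚ) F x
  have hc0 : ∀ i, cF i ≠ 0 := fun i h => (hc i).1 (congrArg Subtype.val h)
  have hfix : ∀ i, ∀ τ ∈ r.range, ∀ τ' ∈ r.range, τ (τ' (cF i) / cF i) = τ' (cF i) / cF i := by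
    rintro i τ ⟨σ, rfl⟩ τ' ⟨σ', rfl⟩
    apply Subtype.ext
    rw [hrc]
    have hz : ((r σ' (cF i) / cF i : F) : AlgebraicClosure ℚ) ∈ E := by
      apply hE
      obtain ⟨-, n, hn, hn2⟩ := hc i
      refine ⟨n, hn, ?_⟩
      have h1 : ((r σ' (cF i) / cF i : F) : AlgebraicClosure ℚ) = σ' (c i) / c i := by
        push_cast
        rw [hrc]
      rw [h1, div_pow, ← map_pow]
      have h2 : σ' (c i ^ n) = c i ^ n := σ'.commutes (⟨c i ^ n, hn2⟩ : E)
      rw [h2, div_self (pow_ne_zero _ (hc i).1)]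
    exact σ.commutes (⟨_, hz⟩ : E)
  have hsum : ((∑ i, cF i : F) : AlgebraicClosure ℚ) = ∑ i, c i := by
    push_cast
    rfl
  have hα' : ∑ i, cF i ≠ 0 := by
    intro h
    apply hα
    rw [← hsum, h]
    rfl
  rcases core hLM hGR F ι r.range cF hc0 hfix hα' with ⟨i, B, hB, hB2⟩ | h
  · left
    refine ⟨i, (hOB E _ (B.image (fun x : F => (x : AlgebraicClosure ℚ))) ?_).trans
      (card_image_le.trans hB)⟩
    intro σ
    rw [mem_image]
    refine ⟨_, hB2 (r σ) ⟨σ, rfl⟩, ?_⟩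
    rw [hrc]
    push_cast
    rfl
  · right
    have h1 := hHA F (AlgebraicClosure ℚ) (∑ i, cF i)
    have h2 : algebraMap F (AlgebraicClosure ℚ) (∑ i, cF i) = ∑ i, c i := hsum
    rw [h2] at h1
    rw [h1]
    have h3 : (0 : ℝ) < Module.finrank ℚ F := by exact_mod_cast Module.finrank_pos
    rw [le_div_iff₀ h3]
    calc 1 / (150 * (Fintype.card ι : ℝ) ^ 2) * Module.finrank ℚ F
        = Module.finrank ℚ F / (150 * (Fintype.card ι : ℝ) ^ 2) := by ring
      _ ≤ _ := h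

end Pool.Agent.H20.FT
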