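import Pool.Agent.H24.RD.Targets

/-!
# Heights of sums of boundedly many terms (MP_c65535_nt): targets
-/

set_option autoImplicit false

open NumberField Height Finset

namespace Pool.Agent.H20.FT

section

variable {F : Type} [Field F] [NumberField F]

/-- the sum of the logarithms over the infinite places -/
noncomputable def Li (x : F) : ℝ := ∑ v : InfinitePlace F, (v.mult : ℝ) * Real.log (v x)

/-- the sum of the logarithms over the finite places -/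
noncomputable def Lf (x : F) : ℝ := ∑ᶠ v : FinitePlace F, Real.log (v x)

end

/-! ## The lemma -/

/-- LI: rules for the sums of logarithms. -/
def T_LI : Prop := ∀ (F : Type) [Field F] [NumberField F],
  (∀ x : F, x ≠ 0 → Lf x = -Li x) ∧
  (∀ x y : F, x ≠ 0 → y ≠ 0 → Li (x * y) = Li x + Li y) ∧
  (∀ x : F, IsIntegral ℤ x → x ≠ 0 → 0 ≤ Li x) ∧
  (∀ m : ℕ, Li (m : F) = Module.finrank ℚ F * Real.log m) ∧
  ∀ (x : F) (n : ℕ), 0 < n → x ^ n = 1 → Li x = 0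

/-- IN: the height is invariant. -/
def T_IN : Prop := ∀ (F : Type) [Field F] [NumberField F] (s : F ≃+* F) (x : F),
  logHeight₁ (s x) = logHeight₁ x

open Classical in
/-- RU: the mean value over a group of roots of unity. -/
def T_RU : Prop := ∀ (F H : Type) [Field F] [NumberField F] [Group H] [Fintype H]
  (χ : H →* Fˣ), ∑ σ ∈ univ.filter (fun σ => χ σ ≠ 1), Li (1 - (χ σ : F)) =
    (Fintype.card H / Nat.card χ.range : ℝ) *
      (Module.finrank ℚ F * Real.log (Nat.card χ.range))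

open Classical in
/-- GS: a good element. -/
def T_GS : Prop := ∀ (F H ι : Type) [Field F] [NumberField F] [Group H] [Fintype H] [Fintype ι]
  (ψ : ι → H →* Fˣ),
  (∀ i j, i ≠ j → 10 ^ 4 * Fintype.card ι ^ 4 ≤ Nat.card (ψ i / ψ j).range) →
  ∃ σ : H, (∀ i j, i ≠ j → ψ i σ ≠ ψ j σ) ∧
    ∑ i, ∑ j ∈ univ.erase i, Li (1 - (ψ i σ : F) / (ψ j σ : F)) ≤ Module.finrank ℚ F / 30

open Classical in
/-- FN: the finite places. -/
def T_FN : Prop := ∀ (F ι : Type) [Field F] [NumberField F] [Fintype ι] (s : F ≃+* F)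
  (c z : ι → F), (∀ i, c i ≠ 0) → (∀ i, ∃ n : ℕ, 0 < n ∧ z i ^ n = 1) →
  (∀ i, s (c i) = z i * c i) → (∀ i, s (z i) = z i) → Function.Injective z → ∀ i : ι,
  Lf (c i) ≤ Fintype.card ι * logHeight₁ (∑ j, c j) + ∑ j ∈ univ.erase i, Li (1 - z i / z j)

/-- AN: an inequality for mean values. -/
def T_AN : Prop := ∀ (X : Type) [Fintype X] [Nonempty X] (a : X → ℝ) (p : ℕ) (S : ℝ), 2 ≤ p →
  (∀ x, 0 ≤ a x) → ∑ x, a x ^ 2 = Fintype.card X * S → (∀ x, a x ^ 2 ≤ p * S) → 0 < S →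
  (∑ x, Real.posLog (a x) ≤ Fintype.card X / (64 * p ^ 2) → S ≤ 13 / 10) ∧
  Fintype.card X * Real.log S ≤
    Fintype.card X * Real.log 2 + 4 * p * ∑ x, Real.posLog (a x)

/-- AR: the infinite places. -/
def T_AR : Prop := ∀ (F H ι : Type) [Field F] [NumberField F] [Group H] [Fintype H] [Fintype ι]
  (ρ : H →* (F ≃ₐ[ℚ] F)) (ψ : ι → H →* Fˣ) (c : ι → F) (v : InfinitePlace F),
  2 ≤ Fintype.card ι → Function.Injective ψ → (∀ i, c i ≠ 0) →
  (∀ τ i, ρ τ (c i) = (ψ i τ : F) * c i) →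
  (∑ τ, Real.posLog (v (ρ τ (∑ i, c i))) ≤ Fintype.card H / (64 * (Fintype.card ι : ℝ) ^ 2) →
    ∑ i, Real.log (v (c i)) ≤ -(21 / 100) * Fintype.card ι) ∧
  Fintype.card H * ∑ i, Real.log (v (c i)) ≤
    2 * (Fintype.card ι : ℝ) ^ 2 * ∑ τ, Real.posLog (v (ρ τ (∑ i, c i)))

/-- LM: the height of a sum of terms with very different characters. -/
def T_LM : Prop := ∀ (F H ι : Type) [Field F] [NumberField F] [Group H] [Fintype H] [Fintype ι]
  (ρ : H →* (F ≃ₐ[ℚ] F)) (ψ : ι → H →* Fˣ) (c : ι → F), 2 ≤ Fintype.card ι →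
  (∀ i j, i ≠ j → 10 ^ 4 * Fintype.card ι ^ 4 ≤ Nat.card (ψ i / ψ j).range) →
  (∀ i, c i ≠ 0) → (∀ τ i, ρ τ (c i) = (ψ i τ : F) * c i) →
  (∀ τ σ i, ρ τ (ψ i σ : F) = (ψ i σ : F)) →
  Module.finrank ℚ F / (150 * (Fintype.card ι : ℝ) ^ 2) ≤ logHeight₁ (∑ i, c i)

/-! ## The reduction -/

/-- GR: restriction to a subgroup of small index. -/
def T_GR : Prop := ∀ (G M ι : Type) [Group G] [Finite G] [CommGroup M] [Fintype ι]
  (χ : ι → G →* M) (T : ℕ), 1 ≤ T → ∃ N : Subgroup G, N.index ≤ T ^ Fintype.card ι ∧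
    ∀ i j, (χ i).comp N.subtype = (χ j).comp N.subtype ∨
      T ≤ Nat.card ((χ i).comp N.subtype / (χ j).comp N.subtype).range

/-- OB: the degree is at most the size of the orbit. -/
def T_OB : Prop := ∀ (E : IntermediateField ℚ (AlgebraicClosure ℚ)) (β : AlgebraicClosure ℚ)
  (B : Finset (AlgebraicClosure ℚ)),
  (∀ σ : AlgebraicClosure ℚ ≃ₐ[E] AlgebraicClosure ℚ, σ β ∈ B) →
  Module.finrank E (IntermediateField.adjoin E {β}) ≤ B.card

/-- RD: a sum of Kummer elements over `E` either is large or is a member of a small extension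
times one of the terms. -/
def T_RD : Prop := ∀ (E : IntermediateField ℚ (AlgebraicClosure ℚ)) (ι : Type) [Fintype ι]
  (c : ι → AlgebraicClosure ℚ),
  (∀ z : AlgebraicClosure ℚ, (∃ n : ℕ, 0 < n ∧ z ^ n = 1) → z ∈ E) →
  (∀ i, c i ≠ 0 ∧ ∃ n : ℕ, 0 < n ∧ c i ^ n ∈ E) → ∑ i, c i ≠ 0 →
  (∃ i, Module.finrank E (IntermediateField.adjoin E {(∑ j, c j) / c i}) ≤
    (10 ^ 4 * Fintype.card ι ^ 4) ^ Fintype.card ι) ∨
  1 / (150 * (Fintype.card ι : ℝ) ^ 2) ≤ absLogHeight₁ (∑ i, c i)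

/-- DG: degrees. -/
def T_DG : Prop := ∀ (L' L : IntermediateField ℚ (AlgebraicClosure ℚ))
  (X : Set (AlgebraicClosure ℚ)), L' ≤ L → X.Finite →
  (∀ β : AlgebraicClosure ℚ, Module.finrank L' (IntermediateField.adjoin L' {β}) ≤
    Module.finrank L' (IntermediateField.adjoin L' X) *
      Module.finrank (IntermediateField.restrictScalars ℚ (IntermediateField.adjoin L' X))
        (IntermediateField.adjoin
          (IntermediateField.restrictScalars ℚ (IntermediateField.adjoin L' X)) {β})) ∧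
  (0 < Module.finrank L' (IntermediateField.adjoin L' X)) ∧
  ∀ β ∈ IntermediateField.adjoin L X, Module.finrank L (IntermediateField.adjoin L {β}) ≤
    Module.finrank L' (IntermediateField.adjoin L' X)

/-- FT: the theorem. -/
def T_FT : Prop := ∀ (Γ : Subgroup (AlgebraicClosure ℚ)ˣ), Γ.FG → ∀ (S : Finset ℕ),
  ∃ (c : ℝ) (C : ℕ), 0 < c ∧ ∀ L' : IntermediateField ℚ (AlgebraicClosure ℚ),
    L' = IntermediateField.adjoin ℚ
      ({z : AlgebraicClosure ℚ | ∃ n : ℕ, 0 < n ∧ z ^ n = 1} ∪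
        {z | ∃ n : ℕ, 0 < n ∧ (∀ p : ℕ, p.Prime → p ∣ n → p ∈ S) ∧
          ∃ g ∈ Γ, z ^ n = (g : AlgebraicClosure ℚ)}) →
    ∀ (k : ℕ) (δ γ : Fin k → AlgebraicClosure ℚ),
    (∀ i, ∃ n : ℕ, 0 < n ∧ ∃ g ∈ Γ, γ i ^ n = (g : AlgebraicClosure ℚ)) →
    ∑ i, δ i * γ i ≠ 0 →
    (¬ ∃ n : ℕ, 0 < n ∧ ∃ g ∈ Γ, (∑ i, δ i * γ i) ^ n = (g : AlgebraicClosure ℚ)) →
    c ≤ absLogHeight₁ (∑ i, δ i * γ i) *
      (k * Module.finrank L' (IntermediateField.adjoin L' (Set.range δ))) ^ C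

end Pool.Agent.H20.FT
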