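import Pool.Agent.H24.RD.All
import Pool.Agent.H29.LG.All
import Pool.Agent.H20.FT.Targets
import Pool.Agent.H20.FT.RD
import Pool.Agent.H20.FT.FT
import Pool.Agent.H20.FT.GR
import Pool.Agent.H20.FT.DG
import Pool.Agent.H20.FT.AR
import Pool.Agent.H20.FT.FN
import Pool.Agent.H11.FT.LI
import Pool.Agent.H11.FT.INV
import Pool.Agent.H1.FT.RU
import Pool.Agent.H79.FT.OB
import Pool.Agent.H77.FT.AN
import Pool.Agent.H77.FT.GS
import Pool.Agent.H97.FT.LM

/-!
# MP_c65535_nt: assembly of the bound for sums of few terms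
-/

set_option autoImplicit false

namespace Pool.Agent.H20.FT

theorem aLI : T_LI := Pool.Agent.H11.FT.pf_LI
theorem aIN : T_IN := Pool.Agent.H11.FT.pf_IN Pool.Agent.H24.RD.aHA
theorem aRU : T_RU := Pool.Agent.H1.FT.pf_RU aLI
theorem aGS : T_GS := Pool.Agent.H77.FT.pf_GS aLI aRU
theorem aFN : T_FN := pf_FN aLI aIN
theorem aAN : T_AN := Pool.Agent.H77.FT.pf_AN
theorem aAR : T_AR := pf_AR aAN
theorem aLM : T_LM := Pool.Agent.H97.FT.pf_LM aLI aIN aGS aFN aAR
theorem aGR : T_GR := pf_GR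
theorem aOB : T_OB := Pool.Agent.H79.FT.pf_OB
theorem aRD : T_RD := pf_RD aLM aGR aOB Pool.Agent.H24.RD.aHA
theorem aDG : T_DG := pf_DG
theorem aFT : T_FT := pf_FT aRD aDG Pool.Agent.H29.LG.aMUNI Pool.Agent.H24.RD.aHB

end Pool.Agent.H20.FT
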